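import Mathlib

/-!
# C43: MP_2c257b_al (frozen S01046): a finitely presented Lambda-free group that is not Z^k-free

Definitions and the block statements (Props).  Blocks:
`S_Z` (no free Z^k-tree), `S_C` (completion of a 0-hyperbolic space to a tree), `S_X` (multi HNN,
push / pop), `S_E` (ends of a real 0-hyperbolic group), `S_M` (the Arnoux-Rauzy length function on
the free group of rank 9), `S_N` (free group facts about the 48 port words).
-/

set_option autoImplicit false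

namespace Pool.Agent.LF

/-- The frozen notion: `G` acts freely, without inversions, by isometries on a `Λ`-tree. -/
def FZ (Λ : Type) [AddCommGroup Λ] [LinearOrder Λ] (G : Type) [Group G] : Prop :=
  ∃ (X : Type) (d : X → X → Λ) (ρ : G →* Equiv.Perm X),
        Nonempty X ∧
        (∀ x y, d x y = 0 ↔ x = y) ∧ (∀ x y, d x y = d y x) ∧
        (∀ x y z, d x z ≤ d x y + d y z) ∧
        (∀ g x y, d (ρ g x) (ρ g y) = d x y) ∧
        (∀ g x, ρ (g ^ 2) x = x → g = 1) ∧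
        ∀ Seg : Set X → X → X → Prop,
          (∀ S x y, Seg S x y ↔ ∃ f : Λ → X, f 0 = x ∧ f (d x y) = y ∧
              (∀ s ∈ Set.Icc (0 : Λ) (d x y), ∀ t ∈ Set.Icc (0 : Λ) (d x y),
                d (f s) (f t) = |s - t|) ∧
              S = f '' Set.Icc (0 : Λ) (d x y)) →
          (∀ x y, ∃ S, Seg S x y) ∧
          (∀ S T x y z, Seg S x y → Seg T y z → S ∩ T = {y} → ∃ a b, Seg (S ∪ T) a b) ∧
          (∀ S T x y z, Seg S x y → Seg T x z → ∃ a b, Seg (S ∩ T) a b)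

/-! ## The group -/

/-- base letters: (copy, letter); letters 0, 1, 2 are A, B, C -/
abbrev Bs := Fin 3 × Fin 3

/-- the 24 stable letters -/
inductive Kt
  | t (j z : Fin 3)
  | s (j z : Fin 3)
  | r (i : Fin 2) (X : Fin 3)
  deriving DecidableEq, Fintype

/-- `fx z`, `fy z` are the two letters different from `z` -/
def fx : Fin 3 → Fin 3 := ![1, 0, 0]
def fy : Fin 3 → Fin 3 := ![2, 2, 1]

/-- the commutator `x⁻¹ y⁻¹ x y` -/
def cm {Γ : Type} [Group Γ] (x y : Γ) : Γ := x⁻¹ * y⁻¹ * x * y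

/-- the words of the ties: `AC`, `ABC`, `BCC` -/
def tie {Γ : Type} [Group Γ] (b : Fin 3 → Γ) : Fin 3 → Γ :=
  ![b 0 * b 2, b 0 * b 1 * b 2, b 1 * b 2 * b 2]

/-- target word of a stable letter -/
def tgt {Γ : Type} [Group Γ] (a : Fin 3 → Fin 3 → Γ) : Kt → Γ
  | .t j z => a j (fx z) * a j (fy z)
  | .s j z => cm (a j (fx z)) (a j (fy z)) * a j z
  | .r i X => a i.succ X

/-- source word of a stable letter -/
def src {Γ : Type} [Group Γ] (a : Fin 3 → Fin 3 → Γ) : Kt → Γ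
  | .t j z => cm (a j (fx z)) (a j (fy z)) * a j z
  | .s j z => cm (a j (fx z)) (a j (fy z)) * (a j z)⁻¹
  | .r i X => tie (a i.castSucc) X

/-- the 24 relations `u (src) u⁻¹ = tgt` -/
def Rel {Γ : Type} [Group Γ] (a : Fin 3 → Fin 3 → Γ) (u : Kt → Γ) : Prop :=
  ∀ k, u k * src a k * (u k)⁻¹ = tgt a k

/-- the generators of the group: 9 + 24 -/
abbrev Gen := Bs ⊕ Kt

def gA (j X : Fin 3) : FreeGroup Gen := FreeGroup.of (Sum.inl (j, X))
def gU (k : Kt) : FreeGroup Gen := FreeGroup.of (Sum.inr k)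

/-- the 24 relators -/
def rels : Set (FreeGroup Gen) :=
  Set.range fun k : Kt => gU k * src gA k * (gU k)⁻¹ * (tgt gA k)⁻¹

/-- the group of the counterexample -/
abbrev GG := PresentedGroup rels

/-! ## Block Z: no free Z^k-tree -/

def S_Z : Prop :=
  ∀ (Γ : Type) [Group Γ] (a : Fin 3 → Fin 3 → Γ) (u : Kt → Γ), Rel a u →
    (∀ j, Function.Injective (FreeGroup.lift (a j) : FreeGroup (Fin 3) →* Γ)) →
    ∀ k : ℕ, ¬ FZ (Lex (Fin k → ℤ)) Γ

/-! ## Block C: completion -/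

def S_C : Prop :=
  ∀ (Λ : Type) [AddCommGroup Λ] [LinearOrder Λ] [IsOrderedAddMonoid Λ],
    (∀ x : Λ, ∃ y, y + y = x) →
    ∀ (Γ : Type) [Group Γ] (Y : Type) [MulAction Γ Y] (d : Y → Y → Λ),
    Nonempty Y → (∀ x, d x x = 0) → (∀ x y, d x y = d y x) →
    (∀ w x y z, d w x + d y z ≤ max (d w y + d x z) (d w z + d x y)) →
    (∀ (g : Γ) x y, d (g • x) (g • y) = d x y) →
    (∀ g : Γ, g ≠ 1 → ∃ y, d y (g • y) < d y (g • g • y)) → FZ Λ Γ

/-! ## Blocks E and X: generalised points, ports -/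

/-- generalised points of `H`: points and normalised ports `(e, g)` (the horofunction of the ray
`n ↦ g * π e ^ n`, normalised at `g`) -/
abbrev GP (E H : Type) := H ⊕ (E × H)

/-- left translation of generalised points -/
def lm {E H : Type} [Group H] (h : H) : GP E H → GP E H
  | .inl x => .inl (h * x)
  | .inr p => .inr (p.1, h * p.2)

/-- two generalised points are normalisations of the same port -/
def SP {E H : Type} [Group H] (π : E → H) : GP E H → GP E H → Prop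
  | .inr p, .inr q => p.1 = q.1 ∧ p.2⁻¹ * q.2 ∈ Subgroup.zpowers (π p.1)
  | _, _ => False

/-- port data -/
structure PD (E H : Type) [Group H] (bar : E → E) (π : E → H) (lam : E → ℝ)
    (D : GP E H → GP E H → ℝ) : Prop where
  bar_bar : ∀ e, bar (bar e) = e
  bar_ne : ∀ e, bar e ≠ e
  lam_pos : ∀ e, 0 < lam e
  lam_bar : ∀ e, lam (bar e) = lam e
  self : ∀ x : H, D (.inl x) (.inl x) = 0
  symm : ∀ z w, D z w = D w z
  inv : ∀ h z w, D (lm h z) (lm h w) = D z w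
  shift : ∀ e g z, ¬ SP π (.inr (e, g)) z →
    D (.inr (e, g * π e)) z = D (.inr (e, g)) z + lam e
  hyp : ∀ w x y z, ¬ SP π w x → ¬ SP π w y → ¬ SP π w z → ¬ SP π x y → ¬ SP π x z → ¬ SP π y z →
    D w x + D y z ≤ max (D w y + D x z) (D w z + D x y)

/-- Block E: a real Lyndon length function with rays gives port data. -/
def S_E : Prop :=
  ∀ (E H : Type) [Group H] (bar : E → E) (π : E → H) (lam : E → ℝ) (L : H → ℝ),
    (∀ e, bar (bar e) = e) → (∀ e, bar e ≠ e) → (∀ e, 0 < lam e) → (∀ e, lam (bar e) = lam e) →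
    L 1 = 0 → (∀ g, L g⁻¹ = L g) → (∀ g, L g = 0 → g = 1) →
    (∀ w x y z, L (w⁻¹ * x) + L (y⁻¹ * z) ≤
      max (L (w⁻¹ * y) + L (x⁻¹ * z)) (L (w⁻¹ * z) + L (x⁻¹ * y))) →
    (∀ e (n : ℕ), L (π e ^ n) = n * lam e) →
    (∀ e e' g, Commute (g * π e * g⁻¹) (π e') →
      (e = e' ∧ g ∈ Subgroup.zpowers (π e)) ∨ g * π e * g⁻¹ = (π e')⁻¹) →
    ∃ D : GP E H → GP E H → ℝ, PD E H bar π lam D ∧
      ∀ x y, D (.inl x) (.inl y) = L (x⁻¹ * y)

/-- Block X: the multiple HNN extension acts on a 0-hyperbolic `ℝ ×ₗ ℝ`-space. -/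
def S_X : Prop :=
  ∀ (E H : Type) [Group H] (bar : E → E) (π : E → H) (lam : E → ℝ) (D : GP E H → GP E H → ℝ),
    PD E H bar π lam D →
    (∀ h : H, h ≠ 1 → ∃ x : H, D (.inl x) (.inl (h * x)) < D (.inl x) (.inl (h * (h * x)))) →
    ∀ (Γ : Type) [Group Γ] (ι : H →* Γ) (s : E → Γ),
    (∀ e, s (bar e) = (s e)⁻¹) → (∀ e, ι (π e) * s e = s e * (ι (π (bar e)))⁻¹) →
    (∀ (Q : Type) [Group Q] (φ : H →* Q) (σ : E → Q), (∀ e, σ (bar e) = (σ e)⁻¹) →
      (∀ e, φ (π e) * σ e = σ e * (φ (π (bar e)))⁻¹) →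
      ∃ ψ : Γ →* Q, (∀ h, ψ (ι h) = φ h) ∧ ∀ e, ψ (s e) = σ e) →
    Subgroup.closure (Set.range ι ∪ Set.range s) = ⊤ →
    Function.Injective ι ∧
    ∃ (Y : Type) (_ : MulAction Γ Y) (d : Y → Y → ℝ ×ₗ ℝ), Nonempty Y ∧
      (∀ x, d x x = 0) ∧ (∀ x y, d x y = d y x) ∧
      (∀ w x y z, d w x + d y z ≤ max (d w y + d x z) (d w z + d x y)) ∧
      (∀ (g : Γ) x y, d (g • x) (g • y) = d x y) ∧
      (∀ g : Γ, g ≠ 1 → ∃ y, d y (g • y) < d y (g • g • y))

/-! ## Blocks M and N: the free group of rank 9 -/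

/-- letters of the free group of rank 9 -/
def aw (j X : Fin 3) : FreeGroup Bs := FreeGroup.of (j, X)

/-- oriented edges: `(k, true)` leaves along `u k`, `(k, false)` along `(u k)⁻¹` -/
abbrev Et := Kt × Bool

def bar (e : Et) : Et := (e.1, !e.2)

/-- the 48 port words -/
def pe (e : Et) : FreeGroup Bs := if e.2 then tgt aw e.1 else (src aw e.1)⁻¹

/-- Block M: the Arnoux-Rauzy length function. -/
def S_M : Prop :=
  ∃ (L : FreeGroup Bs → ℝ) (lam : Et → ℝ), (∀ e, 0 < lam e) ∧ (∀ e, lam (bar e) = lam e) ∧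
    L 1 = 0 ∧ (∀ g, L g⁻¹ = L g) ∧ (∀ g, L g = 0 → g = 1) ∧
    (∀ w x y z, L (w⁻¹ * x) + L (y⁻¹ * z) ≤
      max (L (w⁻¹ * y) + L (x⁻¹ * z)) (L (w⁻¹ * z) + L (x⁻¹ * y))) ∧
    (∀ e (n : ℕ), L (pe e ^ n) = n * lam e) ∧
    (∀ g, g ≠ 1 → L g < L (g * g))

/-- Block N: conjugates of port words commute only if the ports agree or are opposite. -/
def S_N : Prop :=
  ∀ e e' (g : FreeGroup Bs), Commute (g * pe e * g⁻¹) (pe e') →
    (e = e' ∧ g ∈ Subgroup.zpowers (pe e)) ∨ g * pe e * g⁻¹ = (pe e')⁻¹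

end Pool.Agent.LF
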