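import Pool.Agent.Lib.LF.Final
import Pool.Agent.Lib.LF.M.Ports
import Pool.Agent.Lib.LF.C.C
import Pool.Agent.Lib.LF.E.Main
import Pool.Agent.Lib.LF.N.N
import Pool.Agent.Lib.LF.Z.All
import Pool.Agent.Lib.LF.X.Main
import Pool.Agent.Lib.LF.X.NfX
import Pool.Agent.Lib.LF.X.RdX
import Pool.Agent.Lib.LF.X.MulX
import Pool.Agent.Lib.LF.X.SacX
import Pool.Agent.Lib.LF.X.RelX
import Pool.Agent.Lib.LF.X.ShX
import Pool.Agent.Lib.LF.X.HdX
import Pool.Agent.Lib.LF.X.TlX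
import Pool.Agent.Lib.LF.X.DdX
import Pool.Agent.Lib.LF.X.LnX
import Pool.Agent.Lib.LF.X.IhX
import Pool.Agent.Lib.LF.X.IsX
import Pool.Agent.Lib.LF.X.FcX
import Pool.Agent.Lib.LF.X.P3X
import Pool.Agent.Lib.LF.X.P4X
import Pool.Agent.Lib.LF.X.ActX
import Pool.Agent.Lib.LF.X.EvX
import Pool.Agent.Lib.LF.X.GnX
import Pool.Agent.Lib.LF.X.FrX

/-!
# C43: all blocks together
-/

set_option autoImplicit false

namespace Pool.Agent.LF

theorem pX : S_X :=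
  s_X_of xNfX xDdX
    (xP4X xShX xHdX xDdX xLnX xFcX (xP3X xShX xHdX xDdX xLnX xFcX))
    (xActX xRdX xMulX xSacX (xRelX xRdX))
    (xGnX xEvX (xIhX xShX xHdX (xTlX xShX xHdX) xDdX) (xIsX xDdX))
    (xFrX xDdX xLnX)

end Pool.Agent.LF
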