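import Pool.Agent.Lib.LF.Main

set_option autoImplicit false

namespace Pool.Agent.LF

/-- the final glue in the exact form of the frozen statement -/
theorem final (hC : S_C) (hX : S_X) (hE : S_E) (hM : S_M) (hN : S_N) (hZ : S_Z) :
    ¬ (∀ (G : Type) [Group G],
    (∃ (n : ℕ) (rels : Set (FreeGroup (Fin n))), rels.Finite ∧ Nonempty (G ≃* PresentedGroup rels)) →
    (∃ (Λ : Type) (_ : AddCommGroup Λ) (_ : LinearOrder Λ) (_ : IsOrderedAddMonoid Λ)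
        (X : Type) (d : X → X → Λ) (ρ : G →* Equiv.Perm X),
        Nonempty X ∧
        (∀ x y, d x y = 0 ↔ x = y) ∧ (∀ x y, d x y = d y x) ∧
        (∀ x y z, d x z ≤ d x y + d y z) ∧
        (∀ g x y, d (ρ g x) (ρ g y) = d x y) ∧
        (∀ g x, ρ (g ^ 2) x = x → g = 1) ∧
        ∀ Seg : Set X → X → X → Prop,
          (∀ S x y, Seg S x y ↔ ∃ f : Λ → X, f 0 = x ∧ f (d x y) = y ∧
              (∀ s ∈ Set.Icc (0 : Λ) (d x y), ∀ t ∈ Set.Icc (0 : Λ) (d x y),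
                d (f s) (f t) = |s - t|) ∧
              S = f '' Set.Icc (0 : Λ) (d x y)) →
          (∀ x y, ∃ S, Seg S x y) ∧
          (∀ S T x y z, Seg S x y → Seg T y z → S ∩ T = {y} → ∃ a b, Seg (S ∪ T) a b) ∧
          (∀ S T x y z, Seg S x y → Seg T x z → ∃ a b, Seg (S ∩ T) a b)) →
    ∃ k : ℕ, ∃ (X : Type) (d : X → X → Lex (Fin k → ℤ)) (ρ : G →* Equiv.Perm X),
        Nonempty X ∧
        (∀ x y, d x y = 0 ↔ x = y) ∧ (∀ x y, d x y = d y x) ∧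
        (∀ x y z, d x z ≤ d x y + d y z) ∧
        (∀ g x y, d (ρ g x) (ρ g y) = d x y) ∧
        (∀ g x, ρ (g ^ 2) x = x → g = 1) ∧
        ∀ Seg : Set X → X → X → Prop,
          (∀ S x y, Seg S x y ↔ ∃ f : Lex (Fin k → ℤ) → X, f 0 = x ∧ f (d x y) = y ∧
              (∀ s ∈ Set.Icc (0 : Lex (Fin k → ℤ)) (d x y), ∀ t ∈ Set.Icc (0 : Lex (Fin k → ℤ)) (d x y),
                d (f s) (f t) = |s - t|) ∧
              S = f '' Set.Icc (0 : Lex (Fin k → ℤ)) (d x y)) →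
          (∀ x y, ∃ S, Seg S x y) ∧
          (∀ S T x y z, Seg S x y → Seg T y z → S ∩ T = {y} → ∃ a b, Seg (S ∪ T) a b) ∧
          (∀ S T x y z, Seg S x y → Seg T x z → ∃ a b, Seg (S ∩ T) a b)) := by
  intro h
  obtain ⟨hinj, hfree⟩ := gg_free hC hX hE hM hN
  obtain ⟨k, hk⟩ := h GG gg_fp ⟨ℝ ×ₗ ℝ, inferInstance, inferInstance, inferInstance, hfree⟩
  exact hZ GG ga gu rel_gg (lift_ga_inj hinj) k hk

end Pool.Agent.LF
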