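import Pool.Agent.Lib.LF.Defs

/-!
# C43 assembly: S01046 from the six block statements
-/

set_option autoImplicit false

namespace Pool.Agent.LF

/-! ## words under homomorphisms -/

theorem map_cm {Γ Γ' : Type} [Group Γ] [Group Γ'] (f : Γ →* Γ') (x y : Γ) :
    f (cm x y) = cm (f x) (f y) := by simp [cm]

theorem map_tie {Γ Γ' : Type} [Group Γ] [Group Γ'] (f : Γ →* Γ') (b : Fin 3 → Γ) (X : Fin 3) :
    f (tie b X) = tie (fun i => f (b i)) X := by
  fin_cases X <;> simp [tie]

theorem map_tgt {Γ Γ' : Type} [Group Γ] [Group Γ'] (f : Γ →* Γ') (a : Fin 3 → Fin 3 → Γ)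
    (k : Kt) : f (tgt a k) = tgt (fun j X => f (a j X)) k := by
  cases k <;> simp [tgt, map_cm]

theorem map_src {Γ Γ' : Type} [Group Γ] [Group Γ'] (f : Γ →* Γ') (a : Fin 3 → Fin 3 → Γ)
    (k : Kt) : f (src a k) = src (fun j X => f (a j X)) k := by
  cases k <;> simp [src, map_cm, map_tie]

/-! ## the group GG -/

def ga (j X : Fin 3) : GG := PresentedGroup.of (Sum.inl (j, X))
def gu (k : Kt) : GG := PresentedGroup.of (Sum.inr k)

theorem mk_gA (j X : Fin 3) : PresentedGroup.mk rels (gA j X) = ga j X := rfl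
theorem mk_gU (k : Kt) : PresentedGroup.mk rels (gU k) = gu k := rfl

theorem rel_gg : Rel ga gu := by
  intro k
  have h : PresentedGroup.mk rels (gU k * src gA k * (gU k)⁻¹ * (tgt gA k)⁻¹) = 1 :=
    PresentedGroup.one_of_mem ⟨k, rfl⟩
  rw [map_mul, map_mul, map_mul, map_inv, map_inv, map_src, map_tgt] at h
  exact mul_inv_eq_one.mp h

/-- `H = F_9 → GG` -/
def io : FreeGroup Bs →* GG := FreeGroup.lift fun p => ga p.1 p.2

theorem io_aw (j X : Fin 3) : io (aw j X) = ga j X := by simp [io, aw]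

/-- the stable letter of an oriented edge -/
def su (e : Et) : GG := if e.2 then gu e.1 else (gu e.1)⁻¹

theorem su_bar (e : Et) : su (bar e) = (su e)⁻¹ := by
  rcases e with ⟨k, b⟩
  cases b <;> simp [su, bar]

theorem bar_bar (e : Et) : bar (bar e) = e := by
  rcases e with ⟨k, b⟩
  simp [bar]

theorem bar_ne (e : Et) : bar e ≠ e := by
  rcases e with ⟨k, b⟩
  cases b <;> simp [bar]

theorem su_rel (e : Et) : io (pe e) * su e = su e * (io (pe (bar e)))⁻¹ := by
  rcases e with ⟨k, b⟩
  have hs : io (src aw k) = src ga k := by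
    rw [map_src]; congr 1
  have ht : io (tgt aw k) = tgt ga k := by
    rw [map_tgt]; congr 1
  have hr := rel_gg k
  have hr' : tgt ga k * gu k = gu k * src ga k := by rw [← hr]; group
  cases b
  · simp only [pe, su, bar, Bool.not_false, if_true, Bool.false_eq_true, if_false, map_inv, hs, ht]
    have := congrArg (fun x => x⁻¹) hr'
    simp only [mul_inv_rev] at this
    exact this.symm
  · simp only [pe, su, bar, Bool.not_true, if_true, Bool.false_eq_true, if_false, map_inv, hs, ht,
      inv_inv]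
    exact hr'

theorem gg_univ (Q : Type) [Group Q] (φ : FreeGroup Bs →* Q) (σ : Et → Q)
    (hb : ∀ e, σ (bar e) = (σ e)⁻¹)
    (hr : ∀ e, φ (pe e) * σ e = σ e * (φ (pe (bar e)))⁻¹) :
    ∃ ψ : GG →* Q, (∀ h, ψ (io h) = φ h) ∧ ∀ e, ψ (su e) = σ e := by
  let f : Gen → Q := fun g => match g with
    | Sum.inl p => φ (FreeGroup.of p)
    | Sum.inr k => σ (k, true)
  have hA : ∀ j X, FreeGroup.lift f (gA j X) = φ (aw j X) := by
    intro j X; simp [gA, f, aw]
  have hU : ∀ k, FreeGroup.lift f (gU k) = σ (k, true) := by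
    intro k; simp [gU, f]
  have hf : ∀ r ∈ rels, FreeGroup.lift f r = 1 := by
    rintro r ⟨k, rfl⟩
    have h1 := hr (k, true)
    simp only [pe, bar, if_true, Bool.not_true, Bool.false_eq_true, if_false, map_inv,
      inv_inv] at h1
    rw [map_mul, map_mul, map_mul, map_inv, map_inv, map_src, map_tgt, hU]
    simp only [hA]
    rw [map_src, map_tgt] at h1
    rw [mul_inv_eq_one, ← h1]
    group
  refine ⟨PresentedGroup.toGroup hf, ?_, ?_⟩
  · intro h
    have : (PresentedGroup.toGroup hf).comp io = φ := by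
      apply FreeGroup.ext_hom
      rintro ⟨j, X⟩
      simp only [MonoidHom.comp_apply, io, FreeGroup.lift_apply_of, ga]
      rw [PresentedGroup.toGroup.of]
    exact DFunLike.congr_fun this h
  · have ht : ∀ k, PresentedGroup.toGroup hf (gu k) = σ (k, true) := by
      intro k
      simp only [gu]
      rw [PresentedGroup.toGroup.of]
    rintro ⟨k, b⟩
    cases b
    · have := hb (k, true)
      simp only [bar, Bool.not_true] at this
      simp only [su, Bool.false_eq_true, if_false, map_inv, ht, this]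
    · simp only [su, if_true, ht]

theorem gg_gen : Subgroup.closure (Set.range io ∪ Set.range su) = ⊤ := by
  rw [eq_top_iff, ← PresentedGroup.closure_range_of rels, Subgroup.closure_le]
  rintro _ ⟨g, rfl⟩
  apply Subgroup.subset_closure
  rcases g with ⟨j, X⟩ | k
  · left
    exact ⟨aw j X, io_aw j X⟩
  · right
    exact ⟨(k, true), by simp [su, gu]⟩

/-- the subgroups of rank 3 -/
theorem lift_ga_inj (hi : Function.Injective io) (j : Fin 3) :
    Function.Injective (FreeGroup.lift (ga j) : FreeGroup (Fin 3) →* GG) := by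
  have h1 : (FreeGroup.lift (ga j) : FreeGroup (Fin 3) →* GG)
      = io.comp (FreeGroup.map (fun X => (j, X))) := by
    apply FreeGroup.ext_hom
    intro X
    simp [io]
  rw [h1]
  have h2 : Function.Injective (FreeGroup.map (fun X : Fin 3 => (j, X)) : FreeGroup (Fin 3) →* FreeGroup Bs) := by
    apply FreeGroup.map_injective
    intro X Y h
    simpa using h
  exact hi.comp h2

/-- GG is finitely presented -/
theorem gg_fp : ∃ (n : ℕ) (rl : Set (FreeGroup (Fin n))), rl.Finite ∧
    Nonempty (GG ≃* PresentedGroup rl) := by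
  let e : Gen ≃ Fin (Fintype.card Gen) := Fintype.equivFin Gen
  refine ⟨Fintype.card Gen, FreeGroup.freeGroupCongr e '' rels, ?_, ⟨?_⟩⟩
  · exact Set.Finite.image _ (Set.finite_range _)
  · exact PresentedGroup.equivPresentedGroup rels e

theorem half (x : ℝ ×ₗ ℝ) : ∃ y, y + y = x := by
  refine ⟨toLex ((ofLex x).1 / 2, (ofLex x).2 / 2), ?_⟩
  apply (ofLex (α := ℝ × ℝ)).injective
  ext <;> simp

/-- GG acts freely on a tree -/
theorem gg_free (hC : S_C) (hX : S_X) (hE : S_E) (hM : S_M) (hN : S_N) :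
    Function.Injective io ∧ FZ (ℝ ×ₗ ℝ) GG := by
  obtain ⟨L, lam, h1, h2, h3, h4, h5, h6, h7, h8⟩ := hM
  obtain ⟨D, hD, hDL⟩ := hE Et (FreeGroup Bs) bar pe lam L bar_bar bar_ne h1 h2 h3 h4 h5 h6 h7 hN
  obtain ⟨hinj, Y, hY, d, k0, k1, k2, k3, k4, k5⟩ := hX Et (FreeGroup Bs) bar pe lam D hD (by
    intro h hh
    refine ⟨1, ?_⟩
    rw [hDL, hDL]
    simpa using h8 h hh) GG io su su_bar su_rel gg_univ gg_gen
  exact ⟨hinj, hC (ℝ ×ₗ ℝ) half GG Y d k0 k1 k2 k3 k4 k5⟩

end Pool.Agent.LF
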